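import Pool.Agent.U106.OI.Fun

/-!
# Billiards in almost every convex polygon: the limits of the slices of invariant functions

Let `P` be a convex polygon with `N` vertices, none of whose angles is a rational multiple of `π`; this
holds for almost every polygon. Let `f` be any measurable function of the state (position, direction)
which is invariant under the billiard flow. Limits are taken up to null sets.

(1) At each vertex `p i`, either the slices `f (·, θ)` have the limit `c i`, a constant, for almost every
direction `θ`; or, for almost every `θ` for which the line through `p i` in the direction `θ` meets `P`,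
`f (·, θ)` has a limit at `p i` from neither side of this line.
(2) For almost every `θ`, every limit of `f (·, θ)` at a point of `P` is one of these at most `N` numbers.
(3) If, for almost every `θ`, `f (·, θ)` has a limit at almost every point of `P`, then `f` has almost
everywhere one of these values, and, for almost every `θ`, `f (·, θ)` is equal to `c i` near `p i`.

Proof. Let `C` be an interval. By the dichotomy in `TransitiveComponents`, for the invariant set of the
states with `f ∈ C`, at each vertex either `f (·, θ)` has its values in `C` near `p i` for almost all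
directions, or on neither side of the line for almost all of these directions. Intersecting small
intervals one gets (1). If `f (·, θ)` has a limit `l` at a point, then its values are in small intervals
`C` around `l` on an open set, so there is a vertex as in the first case, and (2) follows.
-/

set_option autoImplicit false

namespace Pool.Agent.Results.MP_7bc51d_an.LimitsOfSlices

open Complex Set MeasureTheory Pool.Agent.W780.PG Pool.Agent.W780.BB Pool.Agent.TH103.BL
  Pool.Agent.U106.BI Pool.Agent.U106.OI

open scoped Real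

/-- Limits of the slices of invariant functions of the billiard flow in convex polygons without rational
angles. -/
theorem result (n : ℕ) :
    (∀ᵐ p : Fin (n + 3) → ℂ, IsConvexPolygon p → ∀ i, Irrational (ang p i / π)) ∧
    ∀ p : Fin (n + 3) → ℂ, IsConvexPolygon p → (∀ i, Irrational (ang p i / π)) →
      ∀ f : ℂ × ℝ → ℝ, Measurable f → IsInvariantFun p f →
        ∃ (J : Set (Fin (n + 3))) (c : Fin (n + 3) → ℝ),
          -- (1) the vertices
          (∀ i ∈ J, ∀ᵐ θ : ℝ, LimTo p f (p i) θ (c i)) ∧
          (∀ i ∉ J, ∀ᵐ θ : ℝ, (∃ s : ℝ, p i + s • dir θ ∈ region p) → ∀ l : ℝ,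
            ¬ LimBeside p f i 1 θ l ∧ ¬ LimBeside p f i (-1) θ l) ∧
          -- (2) the limits at the points of the polygon
          (∀ᵐ θ : ℝ, ∀ z ∈ region p, ∀ l : ℝ, LimTo p f z θ l → ∃ i ∈ J, l = c i) ∧
          -- (3) functions with limits almost everywhere
          ((∀ᵐ θ : ℝ, ∀ᵐ z : ℂ, z ∈ region p → LimAt p f z θ) →
            (∀ᵐ x : ℂ × ℝ, x.1 ∈ region p → ∃ i ∈ J, f x = c i) ∧
            ∀ᵐ θ : ℝ, ∀ i ∈ J, ∃ r : ℝ, 0 < r ∧
              ∀ᵐ z : ℂ, z ∈ region p → ‖z - p i‖ < r → f (z, θ) = c i) := by
  classical
  refine ⟨ae_irrational n, fun p hp hirr f hf hI => ?_⟩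
  obtain ⟨c, hc⟩ : ∃ c : Fin (n + 3) → ℝ, ∀ i, (∃ c : ℝ, ∀ᵐ θ : ℝ, LimTo p f (p i) θ c) →
      ∀ᵐ θ : ℝ, LimTo p f (p i) θ (c i) := by
    refine ⟨fun i => if h : ∃ c : ℝ, ∀ᵐ θ : ℝ, LimTo p f (p i) θ c then h.choose else 0,
      fun i h => ?_⟩
    simp only [dif_pos h]
    exact h.choose_spec
  have hJ : ∀ i ∈ {i | ∃ c : ℝ, ∀ᵐ θ : ℝ, LimTo p f (p i) θ c},
      ∀ᵐ θ : ℝ, LimTo p f (p i) θ (c i) := fun i hi => hc i hi
  have hJc : ∀ i ∉ {i | ∃ c : ℝ, ∀ᵐ θ : ℝ, LimTo p f (p i) θ c}, ∃ k : ℕ, ∀ q : ℚ,
      ∀ᵐ θ : ℝ, θ ∉ FU p f (RC q k) i := by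
    intro i hi
    rcases vertex_alt hp hirr hf hI i with h | h
    · exact absurd h hi
    · exact h
  have hall := all_values hp hirr hf hI hJ hJc
  refine ⟨_, c, hJ, fun i hi => ?_, hall, fun hA => values2 hp hf hJ hall hA⟩
  obtain ⟨k, hk⟩ := hJc i hi
  exact no_beside hp hf hI hk

end Pool.Agent.Results.MP_7bc51d_an.LimitsOfSlices
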