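import Pool.Agent.U106.OX.Atoms

/-!
# Billiards in convex polygons: the closures of the orbits

Let `P` be a convex polygon with `N` vertices. The states are the pairs `(z, θ)`, with `z` in the open
polygon; `Orbit p x` is the full billiard orbit of the state `x`, the smallest invariant set which
contains `x`. The rays from the vertex `p i` are the states `(p i + s dir θ, θ)` (`s > 0`: after, `s < 0`:
before the vertex).

(1) Let the angle at `p i` not be a rational multiple of `π`. Then there is a closed set `K i` which
contains all rays from `p i`, and, for almost every `θ`, is the closure of the orbit of the ray from
`p i` in the direction `θ`. So almost every ray from `p i` comes arbitrarily close to every state which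
some ray from `p i` reaches: if one ray from `p i` meets an open set of states, then almost all do.

Now let no angle of `P` be a rational multiple of `π`; this holds for almost every polygon.

(2) For almost every `θ`, the closure of the orbit of `(z, θ)` is contained in one of the `N` sets `K i`
for almost every `z`, and is equal to one of them for all `z` outside of a meagre set.
(3) Every state is in one of the sets `K i`.
(4) Call a measurable set of states small if its slices, for almost every direction, are meagre. Up to
small sets the phase space is the union of at most `N` disjoint invariant measurable sets (the members of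
`F`), each of which is indecomposable: every invariant measurable set contains it or is disjoint from
it, up to small sets. Each is comeagre near one of the vertices, in almost every direction, and almost
every direction, all its states outside of a meagre set have the same orbit closure, one of the `K i`.

Proof. Let `V` be an open invariant set (or, in (4), an invariant Borel set, up to meagre sets in the
slices). Let `L` be the line which starts at the vertex `p i` in the direction `θ`, and let `V` contain a
strip beside `L`, on one side `σ`. The records of `L` are the vertices on the side `σ` which are closer
to the (unfolded) line than all vertices met before on this side; for almost every `θ` there are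
infinitely many. If two lines from `p i`, with strips beside them as above, have the same record and
arrive there in the same direction, then the line which passes closer to the record comes from the strip
beside the start of the other line. So it is in `V`, with the neighbouring lines on both sides. Hence, for
the lines beside which there is a strip in `V` but which are not in `V`, the maps from the directions to
the directions of arrival at the records of the order `2 ^ (-k)` are injective and measure-preserving, with
disjoint images, and the directions of these lines form a null set, by the Borel–Cantelli lemma. So
for almost all directions one-sided strips imply full neighbourhoods of the vertex. By the reflections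
at `p i`, and the ergodicity of irrational rotations, it follows that `V` contains all states near `p i`
for almost every direction or for almost no direction. In the second case no ray from `p i` is in `V`,
since `V` is open. This is (1), with the saturations `V` of the sets of a countable basis. In almost every
direction the orbit of `z` comes close to vertices; at the first vertex in a narrow strip around the orbit
one sees whether `z` is in the interior of the slice of `V`, or of its complement. This gives (2) and (3).
For (4), the slices of invariant Borel sets are open up to meagre sets; if they are not meagre, the set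
is comeagre near a vertex.
-/

set_option autoImplicit false

namespace Pool.Agent.Results.MP_7bc51d_an.OrbitClosures

open Complex Set MeasureTheory Filter Topology Pool.Agent.W780.PG Pool.Agent.W780.BB
  Pool.Agent.TH103.BL Pool.Agent.U106.BI Pool.Agent.U106.OI Pool.Agent.U106.OX

open scoped Real

/-- The closures of the orbits of the billiard flow in convex polygons with irrational angles. -/
theorem result (n : ℕ) :
    (∀ᵐ p : Fin (n + 3) → ℂ, IsConvexPolygon p → ∀ i, Irrational (ang p i / π)) ∧
    ∀ p : Fin (n + 3) → ℂ, IsConvexPolygon p → ∃ K : Fin (n + 3) → Set (ℂ × ℝ),
      (∀ i, IsClosed (K i)) ∧
      -- (1) the rays from a vertex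
      (∀ i, Irrational (ang p i / π) →
        (∀ θ s : ℝ, p i + s • dir θ ∈ region p → (p i + s • dir θ, θ) ∈ K i) ∧
        ∀ᵐ θ : ℝ, ∀ s : ℝ, p i + s • dir θ ∈ region p →
          closure (Orbit p (p i + s • dir θ, θ)) = K i) ∧
      ((∀ i, Irrational (ang p i / π)) →
        -- (2) the generic states
        (∀ᵐ θ : ℝ, (∀ᵐ z : ℂ, z ∈ region p → ∃ i, closure (Orbit p (z, θ)) ⊆ K i) ∧
          ∀ᶠ z : ℂ in residual ℂ, z ∈ region p → ∃ i, closure (Orbit p (z, θ)) = K i) ∧
        -- (3) the sets cover the phase space
        region p ×ˢ univ ⊆ ⋃ i, K i ∧
        -- (4) the invariant sets up to meagre sets in almost every direction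
        ∃ F : Set (Set (ℂ × ℝ)), F.Finite ∧ F.ncard ≤ n + 3 ∧ F.PairwiseDisjoint id ∧
          Small p ((region p ×ˢ univ) \ ⋃₀ F) ∧
          ∀ E ∈ F, MeasurableSet E ∧ IsInvariant p E ∧
            (∀ A, MeasurableSet A → IsInvariant p A → Small p (E ∩ A) ∨ Small p (E \ A)) ∧
            (∃ i, ∀ᵐ θ : ℝ, ∃ r : ℝ, 0 < r ∧
              ∀ᶠ z : ℂ in residual ℂ, z ∈ region p → ‖z - p i‖ < r → (z, θ) ∈ E) ∧
            ∃ i, ∀ᵐ θ : ℝ, ∀ᶠ z : ℂ in residual ℂ, z ∈ region p → (z, θ) ∈ E →
              closure (Orbit p (z, θ)) = K i) := by
  refine ⟨ae_irrational n, fun p hp => ⟨KK p, kk_closed, fun i hirr => ⟨fun θ s hs =>
    kk_ray hp hirr hs, ray_closure hp hirr⟩, fun hirr => ⟨generic_closure hp hirr,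
    kk_cover hp hirr, ?_⟩⟩⟩
  have hrr := region_eq hp
  obtain ⟨F, h1, h2, h3, h4, h5⟩ := atoms hp hirr
  refine ⟨F, h1, h2, h3.dis, h4, fun E hE => ⟨h3.meas E hE, h3.inv E hE, h5 E hE, ?_,
    atom_closure hp hirr (h3.big E hE) (h5 E hE)⟩⟩
  obtain ⟨i, hi⟩ := big_vertex hp hirr (h3.meas E hE) (h3.inv E hE) (h3.big E hE)
  refine ⟨i, ?_⟩
  filter_upwards [hi] with θ hθ
  rw [hrr]
  exact fx_res.1 hθ

end Pool.Agent.Results.MP_7bc51d_an.OrbitClosures
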