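import Pool.Agent.U106.BI.Hits

/-!
# Billiards in almost every convex polygon: invariant functions with jumps only along singular orbits

Let no angle of the convex polygon `P` be a rational multiple of `π`; this holds for almost every
polygon. Let `f` be a measurable function of the state (position, direction) which is invariant under
the billiard flow. Suppose that for almost every direction `θ` the slice `f (·, θ)`

* has one-sided limits, on either side of the line in the direction `θ`, at each vertex for which this
  line meets the open polygon, and
* has a limit at each point `z` of the open polygon such that neither of the two orbits which start
  at `z` in the directions `θ` and `θ + π` hits a vertex.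

So the slices may jump across all lines which hit a vertex; in general these lines are dense. Then
`f` is constant almost everywhere. Nothing is assumed about the dependence on the direction.

Proof. Take a line which leaves the vertex `p i` in the direction `θ`, and the strip of width `r` on
one side of it. Let `p j` be the first unfolded vertex in this strip. The map from `θ` to the
direction in which the strip arrives at `p j` is piecewise an isometry, and it is injective apart from
the choice of `i`, of the side and of `j`, since from `p j` one can go back and find `p i` as the first
vertex of a strip. So it does not decrease the measure of a set by more than a constant factor; hence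
for most `θ` the arrival direction is one for which the one-sided limit at `p j` is reached at the
scale `r`. This yields limits at the vertices from inside the polygon which are the same on both sides
of the line (`enter_limits`, `exit_limits`), then two-sided limits at all vertices and in almost all
directions (`all_limits`). These limits make the slices continuous across the singular orbits
(`lim_of_hit`), and the theorem about continuous slices applies.
-/

set_option autoImplicit false

namespace Pool.Agent.Results.MP_7bc51d_an.SingularOrbits

open Complex Set MeasureTheory Pool.Agent.W780.PG Pool.Agent.W780.BB Pool.Agent.TH103.BL
  Pool.Agent.N557.BP Pool.Agent.U106.BI

open scoped Real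

/-- Invariant functions which, for almost every direction, are discontinuous in the position only
along orbits which hit a vertex and have one-sided limits at the vertices, are constant almost
everywhere if all angles of the polygon are irrational multiples of `π`. -/
theorem result (n : ℕ) :
    (∀ᵐ p : Fin (n + 3) → ℂ, IsConvexPolygon p → ∀ i, Irrational (ang p i / π)) ∧
    ∀ p : Fin (n + 3) → ℂ, IsConvexPolygon p → (∀ i, Irrational (ang p i / π)) →
      ∀ f : ℂ × ℝ → ℝ, Measurable f → IsInvariantFun p f → SidedVertexLimits p f →
        (∀ᵐ θ : ℝ, ∀ z ∈ region p, ¬ HitsVertex p z θ → ¬ HitsVertex p z (θ + π) →
          LimAt p f z θ) →
        ∃ c : ℝ, ∀ᵐ x : ℂ × ℝ, x.1 ∈ region p → f x = c :=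
  ⟨ae_irrational n, fun _ hp hirr _ hf hI hS hL => main hp hirr hf hI hS hL⟩

end Pool.Agent.Results.MP_7bc51d_an.SingularOrbits
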