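import Pool.Agent.U106.OI.Fin

/-!
# Billiards in almost every convex polygon: finitely many topologically transitive components

Let `P` be a convex polygon with `N` vertices, none of whose angles is a rational multiple of `π`; this
holds for almost every polygon. The phase space consists of the states `(z, θ)`, `z ∈ P`. For a set `A`
of states and a direction `θ` let `A_θ` be the set of all `z` with `(z, θ) ∈ A`.

(1) Let `A` be a measurable invariant set such that `A_θ` contains almost every point of some nonempty
open subset of `P`, for a non-null set of directions `θ`. Then there is a vertex such that, for almost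
every `θ`, `A_θ` contains almost every point of a neighbourhood of this vertex.
(2) Let `A` be any measurable invariant set and `p i` a vertex. Either `A_θ` contains almost every
point of a neighbourhood of `p i` for almost every `θ`, or, for almost every `θ` for which the line
through `p i` in the direction `θ` meets `P`, `A_θ` contains almost every point near `p i` on neither
side of this line.
(3) There are at most `N` pairwise almost disjoint sets as in (1).
(4) There are at most `N` pairwise disjoint nonempty open invariant sets, whose union is dense in the
phase space, and each of which is topologically transitive: every nonempty open invariant subset is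
dense in it.

Proof. The main point is (2). Let `L` be a line which starts at the vertex `p i` in the direction `θ`,
such that `A` contains a strip beside `L` on the side `σ`, but not near `p i`. The records of `L` are the
vertices `v` on the side `σ` which are closer to the (unfolded) line than all vertices met before on
this side. There are infinitely many records, for almost every `θ`, at distances which tend to `0`. If
`v` is a record of `L` at a distance less than the width of the strip, then `L` is determined by `v` and
the direction of arrival: let `L'` be another such line from `p i`, with the same record, arriving in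
the same direction, but closer to `v`. Then `L'` comes from the strip beside the start of `L`, since this
strip contains no vertex between the start of `L` and `v`; so `A` contains the states near `L'`, on both
sides, a contradiction. So the maps from the directions of such lines to the directions of arrival at
their records of the order `2 ^ (-k)`, `k = 1, 2, …`, are injective and measure-preserving, with disjoint
images. By the Borel–Cantelli lemma the set of these directions is a null set.

By the reflections at `p i`, and the ergodicity of irrational rotations, (2) follows. For (1), in almost
every direction an open strip meets a vertex, and there `A_θ` contains the states on both sides.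
-/

set_option autoImplicit false

namespace Pool.Agent.Results.MP_7bc51d_an.TransitiveComponents

open Complex Set MeasureTheory Pool.Agent.W780.PG Pool.Agent.W780.BB Pool.Agent.TH103.BL
  Pool.Agent.U106.OI

open scoped Real

/-- Invariant sets of the billiard flow in convex polygons without rational angles. -/
theorem result (n : ℕ) :
    (∀ᵐ p : Fin (n + 3) → ℂ, IsConvexPolygon p → ∀ i, Irrational (ang p i / π)) ∧
    ∀ p : Fin (n + 3) → ℂ, IsConvexPolygon p → (∀ i, Irrational (ang p i / π)) →
      -- (1) an invariant set with interior points in its slices contains neighbourhoods of a vertex
      (∀ A : Set (ℂ × ℝ), MeasurableSet A → IsInvariant p A → (¬ ∀ᵐ θ : ℝ, ¬ HasInterior p A θ) →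
        ∃ i, ∀ᵐ θ : ℝ, FullNear p A i θ) ∧
      -- (2) the dichotomy at the vertices
      (∀ A : Set (ℂ × ℝ), MeasurableSet A → IsInvariant p A → ∀ i,
        (∀ᵐ θ : ℝ, FullNear p A i θ) ∨
        ∀ᵐ θ : ℝ, (∃ s : ℝ, p i + s • dir θ ∈ region p) →
          ¬ FullBeside p A i 1 θ ∧ ¬ FullBeside p A i (-1) θ) ∧
      -- (3) the number of such sets
      (∀ F : Set (Set (ℂ × ℝ)), (∀ A ∈ F, MeasurableSet A ∧ IsInvariant p A ∧
          ¬ ∀ᵐ θ : ℝ, ¬ HasInterior p A θ) →
        (∀ A ∈ F, ∀ B ∈ F, A ≠ B → volume {x : ℂ × ℝ | x.1 ∈ region p ∧ x ∈ A ∧ x ∈ B} = 0) →
        F.Finite ∧ F.ncard ≤ n + 3) ∧
      -- (4) the topologically transitive components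
      ∃ F : Set (Set (ℂ × ℝ)), F.Finite ∧ F.ncard ≤ n + 3 ∧
        (∀ U ∈ F, IsOpenInvariant p U ∧ U.Nonempty) ∧ F.PairwiseDisjoint id ∧
        region p ×ˢ univ ⊆ closure (⋃₀ F) ∧
        ∀ U ∈ F, ∀ V, IsOpenInvariant p V → V.Nonempty → V ⊆ U → U ⊆ closure V := by
  refine ⟨ae_irrational n, fun p hp hirr => ⟨fun A hA hI h => set_vertex hp hirr hA hI h,
    fun A hA hI i => set_dich hp hirr hA hI i, fun F hF hd => card_le hp
    (fun A hA => set_vertex hp hirr (hF A hA).1 (hF A hA).2.1 (hF A hA).2.2) hd, ?_⟩⟩
  obtain ⟨F, h1, h2, h3, h4, h5⟩ := decomposition hp hirr
  exact ⟨F, h1, h2, fun U hU => ⟨h3.inv U hU, h3.ne U hU⟩, h3.dis, h4, h5⟩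

end Pool.Agent.Results.MP_7bc51d_an.TransitiveComponents
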